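import Pool.Agent.Helper581.Grig.Base

set_option autoImplicit false

namespace Pool.Agent.Results.MP_c3451b_al.NotClosed

open Pool.Agent.Helper581.Grig

/-- `a, b, c, d` are the generators of the Grigorchuk group, acting on the infinite binary
sequences (the boundary of the binary tree); `cns e x` is the sequence `x` with the letter `e` put
in front of it (`false` is the letter `0`, `true` is the letter `1`). -/
structure IsGrigorchuk (a b c d : Equiv.Perm (ℕ → Bool)) : Prop where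
  a_rec : ∀ e x, a (cns e x) = cns (!e) x
  b_zero : ∀ x, b (cns false x) = cns false (a x)
  b_one : ∀ x, b (cns true x) = cns true (c x)
  c_zero : ∀ x, c (cns false x) = cns false (a x)
  c_one : ∀ x, c (cns true x) = cns true (d x)
  d_zero : ∀ x, d (cns false x) = cns false x
  d_one : ∀ x, d (cns true x) = cns true (b x)

/-- The set `S` is closed in the profinite topology of the group `H`: every `g ∉ S` has a coset
`g N` of a finite index normal subgroup `N` with `g N ∩ S = ∅`. -/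
def ProfinitelyClosed {H : Type} [Group H] (S : Set H) : Prop :=
  ∀ g : H, g ∉ S → ∃ N : Subgroup H, N.Normal ∧ N.FiniteIndex ∧ ∀ m ∈ N, g * m ∉ S

/-- In the Grigorchuk group there are two finitely generated subgroups `A₁`, `A₂` whose product
`A₁ A₂` is not closed in the profinite topology: some `g ∉ A₁ A₂` lies in `A₁ A₂ N` for every
finite index subgroup `N`.  (The first clause says that the group exists and that the four
generators are determined by the recursion.) -/
theorem result :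
    (∃ a b c d : Equiv.Perm (ℕ → Bool), IsGrigorchuk a b c d ∧
      ∀ a' b' c' d', IsGrigorchuk a' b' c' d' → a' = a ∧ b' = b ∧ c' = c ∧ d' = d) ∧
    ∀ a b c d : Equiv.Perm (ℕ → Bool), IsGrigorchuk a b c d →
      ∃ A₁ A₂ : Subgroup (Subgroup.closure ({a, b, c, d} : Set (Equiv.Perm (ℕ → Bool)))),
        A₁.FG ∧ A₂.FG ∧
        (∃ g, (¬ ∃ x ∈ A₁, ∃ y ∈ A₂, x * y = g) ∧
          ∀ N : Subgroup (Subgroup.closure ({a, b, c, d} : Set (Equiv.Perm (ℕ → Bool)))),
            N.FiniteIndex → ∃ x ∈ A₁, ∃ y ∈ A₂, ∃ m ∈ N, x * y * m = g) ∧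
        ¬ ProfinitelyClosed {z | ∃ x ∈ A₁, ∃ y ∈ A₂, x * y = z} := by
  refine ⟨⟨a, b, c, d, ⟨a_cns, b_f, b_t, c_f, c_t, d_f, d_t⟩, fun a' b' c' d' h =>
    rec_unique h.1 h.2 h.3 h.4 h.5 h.6 h.7⟩, ?_⟩
  intro a' b' c' d' h
  obtain ⟨rfl, rfl, rfl, rfl⟩ := rec_unique h.1 h.2 h.3 h.4 h.5 h.6 h.7
  have hno : ¬ ∃ x ∈ A1, ∃ y ∈ A2, x * y = g0 := by
    rintro ⟨x, hx, y, hy, hxy⟩; exact g0_not_mem x hx y hy hxy
  refine ⟨A1, A2, A1_fg, A2_fg, ⟨g0, hno, g0_mem_closure⟩, fun hcl => ?_⟩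
  obtain ⟨N, hN1, hN2, hN⟩ := hcl g0 hno
  obtain ⟨x, hx, y, hy, m, hm, e⟩ := g0_mem_closure N hN2
  exact hN m⁻¹ (N.inv_mem hm) ⟨x, hx, y, hy, (mul_inv_eq_of_eq_mul e.symm).symm⟩

end Pool.Agent.Results.MP_c3451b_al.NotClosed
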